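import Mathlib

set_option autoImplicit false

/-!
# The block lemma

Words `ω : C → Q`; disjoint blocks `B i ⊆ C`, `i < R`, with a map `key i` of the block onto a finite
set `K`; overwriting a word on the block `i` by the pattern `P : K → Bool`. If for all `i` and `ω` the
proportion of the patterns `P` for which the overwritten word lies in `S` is at most `β`, then the
density of `S` is at most `β + (1 - q ^ (-κ)) ^ R`, where `κ` bounds the sizes of the blocks.
-/

namespace Pool.Agent.K4H98.Rel

open Finset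

variable {C Q K : Type} [Fintype C] [DecidableEq C] [Fintype Q] [DecidableEq Q] [Fintype K]
  [DecidableEq K]

/-- the word `ω` overwritten on the block `i` -/
def ow (B : ℕ → Finset C) (key : ℕ → C → K) (a b : C → Q) (i : ℕ) (P : K → Bool) (ω : C → Q) :
    C → Q := fun c => if c ∈ B i then (if P (key i c) then b c else a c) else ω c

/-- the word `ω` is a pattern on the block `i` -/
def IsPat (B : ℕ → Finset C) (key : ℕ → C → K) (a b : C → Q) (i : ℕ) (ω : C → Q) : Prop :=
  ∃ P : K → Bool, ow B key a b i P ω = ω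

/-- the words which are not patterns on the first `n` blocks -/
noncomputable def NoPat (B : ℕ → Finset C) (key : ℕ → C → K) (a b : C → Q) (n : ℕ) :
    Finset (C → Q) := by
  classical
  exact univ.filter fun ω => ∀ j < n, ¬ IsPat B key a b j ω

section
variable {B : ℕ → Finset C} {key : ℕ → C → K} {a b : C → Q}

lemma ow_ow (i : ℕ) (P P' : K → Bool) (ω : C → Q) :
    ow B key a b i P (ow B key a b i P' ω) = ow B key a b i P ω := by
  funext c
  simp only [ow]
  split_ifs <;> rfl

lemma ow_inj (hab : ∀ c, a c ≠ b c) {i : ℕ} (hs : ∀ k, ∃ c ∈ B i, key i c = k) {P P' : K → Bool}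
    {ω : C → Q} (h : ow B key a b i P ω = ow B key a b i P' ω) : P = P' := by
  funext k
  obtain ⟨c, hc, rfl⟩ := hs k
  have h1 := congrFun h c
  simp only [ow, if_pos hc] at h1
  cases hP : P (key i c) <;> cases hP' : P' (key i c) <;> simp [hP, hP'] at h1 ⊢
  · exact absurd h1 (hab c)
  · exact absurd h1.symm (hab c)

lemma isPat_iff (i : ℕ) (ω : C → Q) : IsPat B key a b i ω ↔
    ∃ P : K → Bool, ∀ c ∈ B i, ω c = if P (key i c) then b c else a c := by
  constructor
  · rintro ⟨P, hP⟩
    refine ⟨P, fun c hc => ?_⟩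
    rw [← congrFun hP c]
    simp only [ow, if_pos hc]
  · rintro ⟨P, hP⟩
    refine ⟨P, ?_⟩
    funext c
    simp only [ow]
    split_ifs with hc h
    · rw [hP c hc, if_pos h]
    · rw [hP c hc, if_neg h]
    · rfl

lemma isPat_ow {R : ℕ} (hB : ∀ i j, i < R → j < R → i ≠ j → Disjoint (B i) (B j)) {i j : ℕ}
    (hi : i < R) (hj : j < R) (hij : i ≠ j) (P : K → Bool) (ω : C → Q) :
    IsPat B key a b j (ow B key a b i P ω) ↔ IsPat B key a b j ω := by
  rw [isPat_iff, isPat_iff]
  refine exists_congr fun P' => forall₂_congr fun c hc => ?_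
  have : c ∉ B i := fun h => (disjoint_left.1 (hB i j hi hj hij) h) hc
  simp only [ow, if_neg this]

lemma mem_noPat (n : ℕ) (ω : C → Q) : ω ∈ NoPat B key a b n ↔ ∀ j < n, ¬ IsPat B key a b j ω := by
  simp [NoPat]

lemma ow_mem_noPat {R : ℕ} (hB : ∀ i j, i < R → j < R → i ≠ j → Disjoint (B i) (B j)) {i : ℕ}
    (hi : i < R) (P : K → Bool) (ω : C → Q) :
    ow B key a b i P ω ∈ NoPat B key a b i ↔ ω ∈ NoPat B key a b i := by
  rw [mem_noPat, mem_noPat]
  exact forall₂_congr fun j hj => by rw [isPat_ow hB hi (hj.trans hi) hj.ne']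

open Classical in
/-- double counting on one block -/
lemma count_block {R : ℕ} (hB : ∀ i j, i < R → j < R → i ≠ j → Disjoint (B i) (B j))
    (hab : ∀ c, a c ≠ b c) {i : ℕ} (hi : i < R) (hs : ∀ k, ∃ c ∈ B i, key i c = k)
    (S : Finset (C → Q)) {β : ℝ}
    (hS : ∀ ω, ((univ.filter fun P => ow B key a b i P ω ∈ S).card : ℝ) ≤ β * 2 ^ Fintype.card K) :
    (((NoPat B key a b i).filter fun ω => IsPat B key a b i ω ∧ ω ∈ S).card : ℝ)
      ≤ β * ((NoPat B key a b i).filter fun ω => IsPat B key a b i ω).card := by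
  set X := (NoPat B key a b i).filter fun ω => IsPat B key a b i ω with hX
  have hpat : ∀ ω : C → Q, ∃ P : K → Bool, IsPat B key a b i ω → ow B key a b i P ω = ω := by
    intro ω
    by_cases h : IsPat B key a b i ω
    · obtain ⟨P, hP⟩ := h
      exact ⟨P, fun _ => hP⟩
    · exact ⟨fun _ => true, fun h' => (h h').elim⟩
  choose pat hpat using hpat
  have hX1 : ∀ ω ∈ X, ∀ P, ow B key a b i P ω ∈ X := by
    intro ω hω P
    rw [hX, mem_filter] at hω ⊢
    exact ⟨(ow_mem_noPat hB hi P ω).2 hω.1, P, ow_ow i P P ω⟩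
  have hX2 : ∀ ω ∈ X, ow B key a b i (pat ω) ω = ω := fun ω hω => hpat ω (mem_filter.1 hω).2
  have hX3 : ∀ ω ∈ X, ∀ P, pat (ow B key a b i P ω) = P := by
    intro ω hω P
    have h1 := hX2 _ (hX1 ω hω P)
    rw [ow_ow] at h1
    exact ow_inj hab hs h1
  -- the two sums
  have h1 : ∑ x ∈ X ×ˢ (univ : Finset (K → Bool)), (if ow B key a b i x.2 x.1 ∈ S then (1 : ℝ) else 0)
      = ∑ x ∈ X ×ˢ (univ : Finset (K → Bool)), (if x.1 ∈ S then (1 : ℝ) else 0) := by
    refine sum_nbij' (fun x => (ow B key a b i x.2 x.1, pat x.1))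
      (fun x => (ow B key a b i x.2 x.1, pat x.1)) ?_ ?_ ?_ ?_ ?_
    · intro x hx
      rw [mem_product] at hx ⊢
      exact ⟨hX1 _ hx.1 _, mem_univ _⟩
    · intro x hx
      rw [mem_product] at hx ⊢
      exact ⟨hX1 _ hx.1 _, mem_univ _⟩
    · intro x hx
      rw [mem_product] at hx
      refine Prod.ext ?_ ?_
      · simp only [ow_ow]
        exact hX2 _ hx.1
      · exact hX3 _ hx.1 _
    · intro x hx
      rw [mem_product] at hx
      refine Prod.ext ?_ ?_
      · simp only [ow_ow]
        exact hX2 _ hx.1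
      · exact hX3 _ hx.1 _
    · intro x _
      rfl
  have h2 : ∑ x ∈ X ×ˢ (univ : Finset (K → Bool)), (if x.1 ∈ S then (1 : ℝ) else 0)
      = 2 ^ Fintype.card K * ((X.filter fun ω => ω ∈ S).card : ℝ) := by
    rw [sum_product]
    have : ∀ ω ∈ X, ∑ _P : K → Bool, (if ω ∈ S then (1 : ℝ) else 0)
        = 2 ^ Fintype.card K * (if ω ∈ S then (1 : ℝ) else 0) := by
      intro ω _
      rw [sum_const, card_univ, nsmul_eq_mul]
      simp
    rw [sum_congr rfl this, ← mul_sum, sum_boole]
  have h3 : ∑ x ∈ X ×ˢ (univ : Finset (K → Bool)), (if ow B key a b i x.2 x.1 ∈ S then (1 : ℝ) else 0)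
      ≤ X.card * (β * 2 ^ Fintype.card K) := by
    rw [sum_product, ← nsmul_eq_mul]
    refine sum_le_card_nsmul _ _ _ fun ω _ => ?_
    rw [sum_boole]
    exact hS ω
  rw [h1, h2] at h3
  have h4 : (NoPat B key a b i).filter (fun ω => IsPat B key a b i ω ∧ ω ∈ S)
      = X.filter fun ω => ω ∈ S := by
    rw [hX, filter_filter]
  rw [h4]
  have h5 : (0 : ℝ) < 2 ^ Fintype.card K := by positivity
  refine le_of_mul_le_mul_left (h3.trans (le_of_eq ?_)) h5
  ring

open Classical in
/-- a positive proportion of the words are patterns on one block -/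
lemma count_pat {R κ : ℕ} (hB : ∀ i j, i < R → j < R → i ≠ j → Disjoint (B i) (B j)) {i : ℕ}
    (hi : i < R) (hκ : (B i).card ≤ κ) (hQ : 1 ≤ Fintype.card Q) :
    (NoPat B key a b i).card
      ≤ Fintype.card Q ^ κ * ((NoPat B key a b i).filter fun ω => IsPat B key a b i ω).card := by
  set f : (C → Q) → (C → Q) := fun ω => ow B key a b i (fun _ => false) ω with hf
  have h1 : (NoPat B key a b i).card
      ≤ Fintype.card Q ^ κ * ((NoPat B key a b i).image f).card := by
    refine card_le_mul_card_image _ _ fun ω' _ => ?_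
    have h2 : ((NoPat B key a b i).filter fun ω => f ω = ω').card
        ≤ Fintype.card (B i → Q) := by
      rw [← card_univ]
      refine card_le_card_of_injOn (fun ω c => ω c.1) (fun _ _ => mem_coe.2 (mem_univ _)) ?_
      intro ω₁ h₁ ω₂ h₂ h
      rw [mem_coe, mem_filter] at h₁ h₂
      funext c
      by_cases hc : c ∈ B i
      · exact congrFun h ⟨c, hc⟩
      · have h3 := congrFun (h₁.2.trans h₂.2.symm) c
        simp only [hf, ow, if_neg hc] at h3
        exact h3
    refine h2.trans ?_
    rw [Fintype.card_fun, Fintype.card_coe]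
    exact Nat.pow_le_pow_right hQ hκ
  refine h1.trans (Nat.mul_le_mul_left _ (card_le_card ?_))
  intro ω' hω'
  obtain ⟨ω, hω, rfl⟩ := mem_image.1 hω'
  rw [mem_filter]
  exact ⟨(ow_mem_noPat hB hi _ ω).2 hω, _, ow_ow i _ _ ω⟩

open Classical in
lemma noPat_succ (n : ℕ) : NoPat B key a b (n + 1)
    = (NoPat B key a b n) \ ((NoPat B key a b n).filter fun ω => IsPat B key a b n ω) := by
  ext ω
  rw [mem_noPat, mem_sdiff, mem_filter, mem_noPat]
  constructor
  · intro h
    exact ⟨fun j hj => h j (by omega), fun h' => h n (by omega) h'.2⟩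
  · rintro ⟨h1, h2⟩ j hj
    rcases Nat.lt_succ_iff_lt_or_eq.1 hj with h | rfl
    · exact h1 j h
    · exact fun h => h2 ⟨h1, h⟩

theorem block {R κ : ℕ} (hB : ∀ i j, i < R → j < R → i ≠ j → Disjoint (B i) (B j))
    (hab : ∀ c, a c ≠ b c) (hs : ∀ i < R, ∀ k, ∃ c ∈ B i, key i c = k)
    (hκ : ∀ i < R, (B i).card ≤ κ) (hQ : 1 ≤ Fintype.card Q) (S : Finset (C → Q)) {β : ℝ}
    (hβ : 0 ≤ β)
    (hS : ∀ i < R, ∀ ω, ((univ.filter fun P => ow B key a b i P ω ∈ S).card : ℝ)
      ≤ β * 2 ^ Fintype.card K) :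
    (S.card : ℝ) ≤ (β + (1 - 1 / (Fintype.card Q : ℝ) ^ κ) ^ R)
      * (Fintype.card Q : ℝ) ^ Fintype.card C := by
  classical
  set q : ℝ := (Fintype.card Q : ℝ) with hq
  have hq1 : (1 : ℝ) ≤ q := by rw [hq]; exact_mod_cast hQ
  have hqκ : (0 : ℝ) < q ^ κ := by positivity
  set W : ℝ := q ^ Fintype.card C with hW
  have hW0 : 0 ≤ W := by positivity
  have huniv : ((univ : Finset (C → Q)).card : ℝ) = W := by
    rw [card_univ, Fintype.card_fun, hW, hq]
    push_cast
    rfl
  have hfrac : 0 ≤ 1 - 1 / q ^ κ := by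
    have : 1 / q ^ κ ≤ 1 := by
      rw [div_le_one hqκ]
      exact one_le_pow₀ hq1
    linarith
  have key1 : ∀ n ≤ R, (S.card : ℝ) ≤ β * (W - (NoPat B key a b n).card)
      + ((NoPat B key a b n).filter fun ω => ω ∈ S).card ∧
      ((NoPat B key a b n).card : ℝ) ≤ (1 - 1 / q ^ κ) ^ n * W := by
    intro n
    induction n with
    | zero =>
      intro _
      have h0 : NoPat B key a b 0 = univ := by
        ext ω
        simp [mem_noPat]
      rw [h0, huniv]
      refine ⟨?_, by simp⟩
      have : (univ.filter fun ω : C → Q => ω ∈ S) = S := by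
        ext ω
        simp
      rw [this]
      simp
    | succ n ih =>
      intro hn
      obtain ⟨h1, h2⟩ := ih (by omega)
      have hnR : n < R := by omega
      set E := NoPat B key a b n with hE
      set T := E.filter fun ω => IsPat B key a b n ω with hT
      have h3 : NoPat B key a b (n + 1) = E \ T := by
        rw [noPat_succ]
      have hTE : T ⊆ E := filter_subset _ _
      have h4 : ((E \ T).card : ℝ) = E.card - T.card := by
        rw [card_sdiff_of_subset hTE, Nat.cast_sub (card_le_card hTE)]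
      have h5 := count_block hB hab hnR (hs n hnR) S (hS n hnR)
      rw [← hE, ← hT] at h5
      have h6 : ((E.filter fun ω => ω ∈ S).card : ℝ)
          = ((E.filter fun ω => IsPat B key a b n ω ∧ ω ∈ S).card : ℝ)
            + (((E \ T).filter fun ω => ω ∈ S).card : ℝ) := by
        rw [← Nat.cast_add, ← card_union_of_disjoint]
        · congr 2
          ext ω
          simp only [mem_filter, mem_union, mem_sdiff, hT]
          tauto
        · rw [disjoint_left]
          intro ω hω hω'
          simp only [mem_filter, mem_sdiff, hT] at hω hω'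
          exact hω'.1.2 ⟨hω.1, hω.2.1⟩
      have h7 := count_pat (key := key) (a := a) (b := b) hB hnR (hκ n hnR) hQ
      rw [← hE, ← hT] at h7
      have h8 : (E.card : ℝ) ≤ q ^ κ * T.card := by
        rw [hq]
        exact_mod_cast h7
      rw [h3, h4]
      refine ⟨?_, ?_⟩
      · nlinarith
      · have h9 : (E.card : ℝ) / q ^ κ ≤ T.card := by
          rw [div_le_iff₀ hqκ]
          linarith
        calc (E.card : ℝ) - T.card ≤ E.card - E.card / q ^ κ := by linarith
          _ = (1 - 1 / q ^ κ) * E.card := by ring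
          _ ≤ (1 - 1 / q ^ κ) * ((1 - 1 / q ^ κ) ^ n * W) :=
              mul_le_mul_of_nonneg_left h2 hfrac
          _ = _ := by ring
  obtain ⟨h1, h2⟩ := key1 R le_rfl
  have h3 : (((NoPat B key a b R).filter fun ω => ω ∈ S).card : ℝ) ≤ (NoPat B key a b R).card := by
    exact_mod_cast card_le_card (filter_subset _ _)
  have h4 : (0 : ℝ) ≤ (NoPat B key a b R).card := Nat.cast_nonneg _
  nlinarith [mul_nonneg hβ h4]

end

end Pool.Agent.K4H98.Rel
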