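import Mathlib
import Pool.Agent.TH484.PH.Crit

set_option autoImplicit false

/-!
# Families of patterns on the subsets of `[r]` of size `1, …, d`
-/

namespace Pool.Agent.K4H98.Rel

open Finset
open Pool.Agent.TH484.PH (GoodF StructuredF crit)
open Pool.Agent.H720R3 (pw mem_pw)

/-- nonempty subsets of `[r]` with at most `d` elements -/
abbrev Simp (d r : ℕ) : Type := {T : Finset (Fin r) // 1 ≤ T.card ∧ T.card ≤ d}

/-- good families of patterns -/
def PGood {d r : ℕ} (S : Finset (Simp d r → Bool)) : Prop :=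
  ∃ P ∈ S, ∃ P' ∈ S, ∃ T₀ : Finset (Fin r), T₀.Nonempty ∧ ∀ T : Simp d r,
    (T.1 ⊆ T₀ → P T = false ∧ P' T = true) ∧ (¬ T.1 ⊆ T₀ → P' T = P T)

lemma exists_tup {d r : ℕ} (T : Simp d r) : ∃ t : Fin d → Fin r, univ.image t = T.1 := by
  classical
  have hne : T.1.Nonempty := card_pos.1 T.2.1
  obtain ⟨x₀, hx₀⟩ := hne
  haveI : Nonempty {x // x ∈ T.1} := ⟨⟨x₀, hx₀⟩⟩
  have hc : Fintype.card {x // x ∈ T.1} ≤ Fintype.card (Fin d) := by
    rw [Fintype.card_coe, Fintype.card_fin]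
    exact T.2.2
  obtain ⟨f⟩ := Function.Embedding.nonempty_of_card_le hc
  refine ⟨fun i => (Function.invFun f i).1, ?_⟩
  ext x
  rw [mem_image]
  constructor
  · rintro ⟨i, -, rfl⟩
    exact (Function.invFun f i).2
  · intro hx
    obtain ⟨i, hi⟩ := Function.invFun_surjective f.injective ⟨x, hx⟩
    exact ⟨i, mem_univ _, by rw [hi]⟩

/-- a tuple with the given set of entries -/
noncomputable def tup {d r : ℕ} (T : Simp d r) : Fin d → Fin r := (exists_tup T).choose

lemma image_tup {d r : ℕ} (T : Simp d r) : univ.image (tup T) = T.1 := (exists_tup T).choose_spec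

lemma tup_inj {d r : ℕ} : Function.Injective (tup : Simp d r → Fin d → Fin r) := by
  intro T T' h
  apply Subtype.ext
  rw [← image_tup T, ← image_tup T', h]

lemma tup_mem_pw {d r : ℕ} (T : Simp d r) (γ : Finset (Fin r)) : tup T ∈ pw d γ ↔ T.1 ⊆ γ := by
  rw [mem_pw, ← image_tup T]
  constructor
  · intro h x hx
    obtain ⟨i, -, rfl⟩ := mem_image.1 hx
    exact h i
  · intro h i
    exact h (mem_image_of_mem _ (mem_univ _))

/-- the pattern of a set of tuples -/
noncomputable def pt {d r : ℕ} (A : Finset (Fin d → Fin r)) (T : Simp d r) : Bool :=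
  decide (tup T ∈ A)

lemma fiber_eq {d r : ℕ} (P P' : Simp d r → Bool) :
    (univ.filter fun A : Finset (Fin d → Fin r) => pt A = P).card
      = (univ.filter fun A : Finset (Fin d → Fin r) => pt A = P').card := by
  classical
  set D : Finset (Fin d → Fin r) := (univ.filter fun T : Simp d r => P T ≠ P' T).image tup with hD
  have hmD : ∀ T : Simp d r, tup T ∈ D ↔ P T ≠ P' T := by
    intro T
    rw [hD, mem_image]
    constructor
    · rintro ⟨T', hT', h⟩
      rw [tup_inj h] at hT'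
      exact (mem_filter.1 hT').2
    · intro h
      exact ⟨T, mem_filter.2 ⟨mem_univ _, h⟩, rfl⟩
  have hpt : ∀ (A : Finset (Fin d → Fin r)) (T : Simp d r), pt (symmDiff A D) T
      = xor (pt A T) (decide (P T ≠ P' T)) := by
    intro A T
    unfold pt
    have h1 := hmD T
    by_cases hA : tup T ∈ A <;> by_cases hP : P T ≠ P' T
    · have h2 := h1.2 hP
      simp [mem_symmDiff, hA, h2, hP]
    · have h2 : tup T ∉ D := fun h => hP (h1.1 h)
      simp [mem_symmDiff, hA, h2, hP]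
    · have h2 := h1.2 hP
      simp [mem_symmDiff, hA, h2, hP]
    · have h2 : tup T ∉ D := fun h => hP (h1.1 h)
      simp [mem_symmDiff, hA, h2, hP]
  refine card_nbij' (fun A => symmDiff A D) (fun A => symmDiff A D) ?_ ?_ ?_ ?_
  · intro A hA
    have hA' : pt A = P := by simpa using hA
    have : pt (symmDiff A D) = P' := by
      funext T
      rw [hpt, hA']
      cases hP : P T <;> cases hP' : P' T <;> simp
    simpa using this
  · intro A hA
    have hA' : pt A = P' := by simpa using hA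
    have : pt (symmDiff A D) = P := by
      funext T
      rw [hpt, hA']
      cases hP : P T <;> cases hP' : P' T <;> simp
    simpa using this
  · intro A _
    exact symmDiff_symmDiff_cancel_right D A
  · intro A _
    exact symmDiff_symmDiff_cancel_right D A

lemma pull_card {d r : ℕ} (S : Finset (Simp d r → Bool)) :
    ((univ.filter fun A : Finset (Fin d → Fin r) => pt A ∈ S).card : ℝ)
      * 2 ^ Fintype.card (Simp d r) = S.card * 2 ^ (r ^ d) := by
  classical
  set f : ℕ := (univ.filter fun A : Finset (Fin d → Fin r) => pt A = fun _ => false).card with hf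
  have key : ∀ U : Finset (Simp d r → Bool),
      (univ.filter fun A : Finset (Fin d → Fin r) => pt A ∈ U).card = U.card * f := by
    intro U
    rw [card_eq_sum_card_fiberwise (f := pt)
      (s := univ.filter fun A : Finset (Fin d → Fin r) => pt A ∈ U) (t := U)
      (fun A hA => (mem_filter.1 (mem_coe.1 hA)).2)]
    have : ∀ P ∈ U, ((univ.filter fun A : Finset (Fin d → Fin r) => pt A ∈ U).filter
        fun A => pt A = P).card = f := by
      intro P hP
      rw [hf, ← fiber_eq P]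
      congr 1
      ext A
      simp only [mem_filter, mem_univ, true_and]
      exact ⟨fun h => h.2, fun h => ⟨by rw [h]; exact hP, h⟩⟩
    rw [sum_congr rfl this, sum_const, smul_eq_mul]
  have h1 := key univ
  have h2 : (univ.filter fun A : Finset (Fin d → Fin r) => pt A ∈ (univ : Finset (Simp d r → Bool)))
      = univ := by
    ext A
    simp
  rw [h2, card_univ, card_univ, Fintype.card_fun, Fintype.card_bool, Fintype.card_finset] at h1
  have h3 : Fintype.card (Fin d → Fin r) = r ^ d := by simp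
  rw [h3] at h1
  rw [key S]
  have h4 : ((2 : ℝ) ^ (r ^ d)) = 2 ^ Fintype.card (Simp d r) * f := by exact_mod_cast h1
  rw [h4]
  push_cast
  ring

lemma pgood_of_goodF {d r : ℕ} {S : Finset (Simp d r → Bool)}
    (h : GoodF (univ.filter fun A : Finset (Fin d → Fin r) => pt A ∈ S)) : PGood S := by
  classical
  obtain ⟨A, hA, γ, hγ, hd, hA'⟩ := h
  refine ⟨pt A, (mem_filter.1 hA).2, _, (mem_filter.1 hA').2, γ, hγ, fun T => ⟨fun hT => ?_,
    fun hT => ?_⟩⟩
  · have h1 := (tup_mem_pw T γ).2 hT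
    have h2 : tup T ∉ A := fun h => (disjoint_left.1 hd h) h1
    have h3 : tup T ∈ A ∪ pw d γ := mem_union_right _ h1
    exact ⟨decide_eq_false h2, decide_eq_true h3⟩
  · have h1 : tup T ∉ pw d γ := fun h => hT ((tup_mem_pw T γ).1 h)
    unfold pt
    congr 1
    rw [mem_union]
    simp [h1]

/-- the critical density, for tuples and for patterns -/
theorem crit_pat (d : ℕ) (hd : 1 ≤ d) : ∃ θd : ℝ, 0 ≤ θd ∧
    θd ≤ ((2 : ℝ) ^ (d - 1) - 1) / (2 ^ d - 1) ∧
    (∀ θ : ℝ, θd < θ → ∃ N₀ : ℕ, ∀ N : ℕ, N₀ ≤ N → ∀ S : Finset (Finset (Fin d → Fin N)),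
      θ * (2 : ℝ) ^ (N ^ d) ≤ S.card → GoodF S) ∧
    (∀ ε : ℝ, 0 < ε → ∃ N₀ : ℕ, ∀ N : ℕ, N₀ ≤ N →
      ∃ S : Finset (Finset (Fin d → Fin N)), ¬ GoodF S ∧
        (θd - ε) * (2 : ℝ) ^ (N ^ d) ≤ S.card) ∧
    (∀ θ : ℝ, θd < θ → ∃ r₀ : ℕ, ∀ r : ℕ, r₀ ≤ r → ∀ S : Finset (Simp d r → Bool),
      θ * (2 : ℝ) ^ Fintype.card (Simp d r) ≤ S.card → PGood S) := by
  classical
  obtain ⟨θd, h0, h1, h2⟩ := crit d hd
  have hL : ∀ N : ℕ, (0 : ℝ) < 2 ^ (N ^ d) := fun N => by positivity
  have hcard : ∀ N : ℕ, ((univ : Finset (Finset (Fin d → Fin N))).card : ℝ) = 2 ^ (N ^ d) := by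
    intro N
    rw [card_univ, Fintype.card_finset]
    simp
  have hst : ∀ N : ℕ, StructuredF 0 0 0 (ZMod 2) (univ : Finset (Finset (Fin d → Fin N))) :=
    fun N => ⟨fun i => i.elim0, fun _ => 0, fun _ _ => True, fun i => i.elim0,
      fun T hT => (hT rfl).elim, fun A => by simp⟩
  have hup : ∀ θ : ℝ, θd < θ → ∃ N₀ : ℕ, ∀ N : ℕ, N₀ ≤ N →
      ∀ S : Finset (Finset (Fin d → Fin N)), θ * (2 : ℝ) ^ (N ^ d) ≤ S.card → GoodF S := by
    intro θ hθ
    obtain ⟨N₀, hN₀⟩ := (h2 0 0 0 (ZMod 2)).1 θ 1 hθ one_pos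
    refine ⟨N₀, fun N hN S hS => hN₀ N hN univ S (hst N) ?_ ?_⟩
    · rw [hcard, one_mul]
    · rw [hcard, univ_inter]
      exact hS
  refine ⟨θd, h0, h1, hup, fun ε hε => ?_, fun θ hθ => ?_⟩
  · obtain ⟨N₀, hN₀⟩ := (h2 0 0 0 (ZMod 2)).2 ε hε
    refine ⟨N₀, fun N hN => ?_⟩
    obtain ⟨S, hS, h3⟩ := hN₀ N hN
    refine ⟨S, hS, ?_⟩
    have h4 := (abs_le.1 (h3 univ (hst N))).1
    rw [hcard, univ_inter] at h4
    linarith
  · obtain ⟨N₀, hN₀⟩ := hup θ hθ
    refine ⟨N₀, fun r hr S hS => pgood_of_goodF (hN₀ r hr _ ?_)⟩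
    have h3 := pull_card S
    have h4 : (0 : ℝ) < 2 ^ Fintype.card (Simp d r) := by positivity
    refine le_of_mul_le_mul_right ?_ h4
    rw [h3]
    calc θ * 2 ^ (r ^ d) * 2 ^ Fintype.card (Simp d r)
        = (θ * 2 ^ Fintype.card (Simp d r)) * 2 ^ (r ^ d) := by ring
      _ ≤ S.card * 2 ^ (r ^ d) := mul_le_mul_of_nonneg_right hS (hL r).le

end Pool.Agent.K4H98.Rel
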