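import Mathlib
import Pool.Agent.K4H98.Rel.Block
import Pool.Agent.K4H98.Rel.Pat

set_option autoImplicit false

/-!
# Systems of cells with supports
-/

namespace Pool.Agent.K4H98.Rel

open Finset

/-- good families of words on a system of cells, with the sizes of `γ` in `L` -/
def GoodIn {N : ℕ} {C Q : Type} (supp : C → Finset (Fin N)) (a b : C → Q) (L : Set ℕ)
    (S : Finset (C → Q)) : Prop :=
  ∃ x ∈ S, ∃ y ∈ S, ∃ γ : Finset (Fin N), γ.card ∈ L ∧ (∃ c, supp c ⊆ γ) ∧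
    ∀ c, (supp c ⊆ γ → x c = a c ∧ y c = b c) ∧ (¬ supp c ⊆ γ → y c = x c)

/-- `R` blocks, each divided into `r` groups of the sizes `n j` -/
lemma exists_groups {N R r : ℕ} (n : Fin r → ℕ) (hN : R * ∑ j, n j ≤ N) :
    ∃ G : ℕ → Fin r → Finset (Fin N), (∀ i < R, ∀ j, (G i j).card = n j) ∧
      ∀ i < R, ∀ i' < R, ∀ j j', (i, j) ≠ (i', j') → Disjoint (G i j) (G i' j') := by
  classical
  have hc : Fintype.card (Fin R × Σ j : Fin r, Fin (n j)) ≤ Fintype.card (Fin N) := by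
    rw [Fintype.card_prod, Fintype.card_sigma]
    simpa using hN
  obtain ⟨e⟩ := Function.Embedding.nonempty_of_card_le hc
  refine ⟨fun i j => if h : i < R then univ.image (fun x : Fin (n j) => e (⟨i, h⟩, ⟨j, x⟩)) else ∅,
    fun i hi j => ?_, fun i hi i' hi' j j' hne => ?_⟩
  · simp only [dif_pos hi]
    rw [card_image_of_injective, card_univ, Fintype.card_fin]
    intro x y hxy
    have := e.injective hxy
    simpa using this
  · simp only [dif_pos hi, dif_pos hi']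
    rw [disjoint_left]
    intro z hz hz'
    obtain ⟨x, -, rfl⟩ := mem_image.1 hz
    obtain ⟨y, -, hy⟩ := mem_image.1 hz'
    have h1 := e.injective hy
    rw [Prod.mk.injEq, Fin.mk.injEq, Sigma.mk.injEq] at h1
    exact hne (Prod.ext h1.1.symm h1.2.1.symm)

section
variable {N R r d : ℕ} {n : Fin r → ℕ} {G : ℕ → Fin r → Finset (Fin N)} {C Q : Type} [Fintype C]
  [DecidableEq C] [Fintype Q] [DecidableEq Q] {supp : C → Finset (Fin N)} {a b : C → Q}

/-- the groups which a cell meets -/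
def touch (G : ℕ → Fin r → Finset (Fin N)) (supp : C → Finset (Fin N)) (i : ℕ) (c : C) :
    Finset (Fin r) := univ.filter fun j => ¬ Disjoint (supp c) (G i j)

/-- the block of cells -/
def blk (G : ℕ → Fin r → Finset (Fin N)) (supp : C → Finset (Fin N)) (i : ℕ) : Finset C :=
  univ.filter fun c => supp c ⊆ univ.biUnion (G i)

/-- the key of a cell -/
def key (D : Simp d r) (G : ℕ → Fin r → Finset (Fin N)) (supp : C → Finset (Fin N)) (i : ℕ) (c : C) :
    Simp d r :=
  if h : 1 ≤ (touch G supp i c).card ∧ (touch G supp i c).card ≤ d then ⟨_, h⟩ else D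

lemma touch_simp (hG : ∀ i < R, ∀ i' < R, ∀ j j', (i, j) ≠ (i', j') → Disjoint (G i j) (G i' j'))
    {i : ℕ} (hi : i < R) {c : C} (hc : c ∈ blk G supp i) (h1 : (supp c).Nonempty)
    (h2 : (supp c).card ≤ d) : 1 ≤ (touch G supp i c).card ∧ (touch G supp i c).card ≤ d := by
  classical
  have hc' : supp c ⊆ univ.biUnion (G i) := (mem_filter.1 hc).2
  constructor
  · obtain ⟨x, hx⟩ := h1
    obtain ⟨j, -, hj⟩ := mem_biUnion.1 (hc' hx)
    exact card_pos.2 ⟨j, mem_filter.2 ⟨mem_univ _, fun hd => disjoint_left.1 hd hx hj⟩⟩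
  · refine le_trans ?_ h2
    have hch : ∀ j ∈ touch G supp i c, ∃ x, x ∈ supp c ∧ x ∈ G i j := by
      intro j hj
      have := (mem_filter.1 hj).2
      rw [not_disjoint_iff] at this
      exact this
    obtain ⟨x₀, -⟩ := h1
    have : Nonempty (Fin N) := ⟨x₀⟩
    choose! f hf1 hf2 using hch
    refine card_le_card_of_injOn f (fun j hj => hf1 j hj) ?_
    intro j hj j' hj' hff
    by_contra hne
    have hd := hG i hi i hi j j' (fun h => hne (Prod.ext_iff.1 h).2)
    have h3 := hf2 j hj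
    have h4 := hf2 j' hj'
    rw [← hff] at h4
    exact disjoint_left.1 hd h3 h4

lemma key_eq (D : Simp d r)
    (hG : ∀ i < R, ∀ i' < R, ∀ j j', (i, j) ≠ (i', j') → Disjoint (G i j) (G i' j'))
    {i : ℕ} (hi : i < R) {c : C} (hc : c ∈ blk G supp i) (h1 : (supp c).Nonempty)
    (h2 : (supp c).card ≤ d) : (key D G supp i c).1 = touch G supp i c := by
  unfold key
  rw [dif_pos (touch_simp hG hi hc h1 h2)]

lemma key_surj (D : Simp d r) (hn : ∀ i < R, ∀ j, (G i j).card = n j) (hnd : ∀ j, d ≤ n j)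
    (hn1 : ∀ j, 1 ≤ n j)
    (hG : ∀ i < R, ∀ i' < R, ∀ j j', (i, j) ≠ (i', j') → Disjoint (G i j) (G i' j'))
    (hC : ∀ E : Finset (Fin N), E.card = d → ∃ c, supp c = E) (hd : 1 ≤ d)
    {i : ℕ} (hi : i < R) (T : Simp d r) : ∃ c ∈ blk G supp i, key D G supp i c = T := by
  classical
  have hch : ∀ j, ∃ x, x ∈ G i j := by
    intro j
    have : 0 < (G i j).card := by rw [hn i hi]; exact hn1 j
    obtain ⟨x, hx⟩ := card_pos.1 this
    exact ⟨x, hx⟩
  choose f hf using hch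
  obtain ⟨j₀, hj₀⟩ := card_pos.1 T.2.1
  have h1 : T.1.image f ⊆ T.1.biUnion (G i) := by
    intro x hx
    obtain ⟨j, hj, rfl⟩ := mem_image.1 hx
    exact mem_biUnion.2 ⟨j, hj, hf j⟩
  have h2 : (T.1.image f).card ≤ d := card_image_le.trans T.2.2
  have h3 : d ≤ (T.1.biUnion (G i)).card := by
    calc d ≤ n j₀ := hnd j₀
      _ = (G i j₀).card := (hn i hi j₀).symm
      _ ≤ _ := card_le_card (subset_biUnion_of_mem (G i) hj₀)
  obtain ⟨E, hE1, hE2, hE3⟩ := exists_subsuperset_card_eq h1 h2 h3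
  obtain ⟨c, hc⟩ := hC E hE3
  have hcb : c ∈ blk G supp i := by
    refine mem_filter.2 ⟨mem_univ _, ?_⟩
    rw [hc]
    exact hE2.trans (biUnion_subset_biUnion_of_subset_left _ (subset_univ _))
  refine ⟨c, hcb, ?_⟩
  apply Subtype.ext
  rw [key_eq D hG hi hcb (by rw [hc]; exact card_pos.1 (by omega)) (by rw [hc, hE3])]
  ext j
  simp only [touch, mem_filter, mem_univ, true_and, hc]
  constructor
  · intro h
    by_contra hj
    refine h ?_
    rw [disjoint_left]
    intro x hx hx'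
    obtain ⟨j', hj', hxj'⟩ := mem_biUnion.1 (hE2 hx)
    have hne : j' ≠ j := fun h => hj (h ▸ hj')
    exact disjoint_left.1 (hG i hi i hi j' j (fun h => hne (Prod.ext_iff.1 h).2)) hxj' hx'
  · intro hj hdis
    exact disjoint_left.1 hdis (hE1 (mem_image_of_mem f hj)) (hf j)

lemma blk_disj (hG : ∀ i < R, ∀ i' < R, ∀ j j', (i, j) ≠ (i', j') → Disjoint (G i j) (G i' j'))
    (h1 : ∀ c, (supp c).Nonempty) : ∀ i i', i < R → i' < R → i ≠ i' →
      Disjoint (blk G supp i) (blk G supp i') := by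
  classical
  intro i i' hi hi' hne
  rw [disjoint_left]
  intro c hc hc'
  obtain ⟨x, hx⟩ := h1 c
  obtain ⟨j, -, hj⟩ := mem_biUnion.1 ((mem_filter.1 hc).2 hx)
  obtain ⟨j', -, hj'⟩ := mem_biUnion.1 ((mem_filter.1 hc').2 hx)
  exact disjoint_left.1 (hG i hi i' hi' j j' (fun h => hne (Prod.ext_iff.1 h).1)) hj hj'

lemma blk_card {K : ℕ} (hn : ∀ i < R, ∀ j, (G i j).card = n j)
    (hK : ∀ E : Finset (Fin N), (univ.filter fun c => supp c = E).card ≤ K) {i : ℕ} (hi : i < R) :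
    (blk G supp i).card ≤ K * 2 ^ ∑ j, n j := by
  classical
  have h1 : (blk G supp i).card ≤ K * ((blk G supp i).image supp).card := by
    refine card_le_mul_card_image _ _ fun E _ => ?_
    refine le_trans (card_le_card ?_) (hK E)
    intro c hc
    rw [mem_filter] at hc ⊢
    exact ⟨mem_univ _, hc.2⟩
  refine h1.trans (Nat.mul_le_mul_left _ ?_)
  have h2 : (blk G supp i).image supp ⊆ (univ.biUnion (G i)).powerset := by
    intro E hE
    obtain ⟨c, hc, rfl⟩ := mem_image.1 hE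
    exact mem_powerset.2 (mem_filter.1 hc).2
  refine (card_le_card h2).trans ?_
  rw [card_powerset]
  refine Nat.pow_le_pow_right (by norm_num) ?_
  refine card_biUnion_le.trans (le_of_eq (sum_congr rfl fun j _ => hn i hi j))

lemma goodIn_of_pgood (D : Simp d r) (hn : ∀ i < R, ∀ j, (G i j).card = n j)
    (hnd : ∀ j, d ≤ n j)
    (hG : ∀ i < R, ∀ i' < R, ∀ j j', (i, j) ≠ (i', j') → Disjoint (G i j) (G i' j'))
    (h1 : ∀ c, (supp c).Nonempty) (h2 : ∀ c, (supp c).card ≤ d)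
    (hC : ∀ E : Finset (Fin N), E.card = d → ∃ c, supp c = E) {L : Set ℕ}
    (hL : ∀ T : Finset (Fin r), T.Nonempty → ∑ j ∈ T, n j ∈ L) {i : ℕ} (hi : i < R)
    (S : Finset (C → Q)) (ω : C → Q)
    (h : PGood (univ.filter fun P => ow (blk G supp) (key D G supp) a b i P ω ∈ S)) :
    GoodIn supp a b L S := by
  classical
  obtain ⟨P, hP, P', hP', T₀, hT₀, hT⟩ := h
  refine ⟨_, (mem_filter.1 hP).2, _, (mem_filter.1 hP').2, T₀.biUnion (G i), ?_, ?_, fun c => ?_⟩
  · have : (T₀.biUnion (G i)).card = ∑ j ∈ T₀, n j := by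
      rw [card_biUnion]
      · exact sum_congr rfl fun j _ => hn i hi j
      · intro j _ j' _ hne
        exact hG i hi i hi j j' (fun h => hne (Prod.ext_iff.1 h).2)
    rw [this]
    exact hL T₀ hT₀
  · obtain ⟨j₀, hj₀⟩ := hT₀
    have h3 : d ≤ (T₀.biUnion (G i)).card := by
      calc d ≤ n j₀ := hnd j₀
        _ = (G i j₀).card := (hn i hi j₀).symm
        _ ≤ _ := card_le_card (subset_biUnion_of_mem (G i) hj₀)
    obtain ⟨E, hE1, hE2⟩ := exists_subset_card_eq h3
    obtain ⟨c, hc⟩ := hC E hE2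
    exact ⟨c, by rw [hc]; exact hE1⟩
  · -- cells inside and outside
    have hin : c ∈ blk G supp i → (supp c ⊆ T₀.biUnion (G i) ↔ (key D G supp i c).1 ⊆ T₀) := by
      intro hc
      rw [key_eq D hG hi hc (h1 c) (h2 c)]
      constructor
      · intro hs j hj
        have := (mem_filter.1 hj).2
        rw [not_disjoint_iff] at this
        obtain ⟨x, hx, hxj⟩ := this
        obtain ⟨j', hj', hxj'⟩ := mem_biUnion.1 (hs hx)
        by_contra hj0
        have hne : j' ≠ j := fun h => hj0 (h ▸ hj')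
        exact disjoint_left.1 (hG i hi i hi j' j (fun h => hne (Prod.ext_iff.1 h).2)) hxj' hxj
      · intro hs x hx
        obtain ⟨j, -, hj⟩ := mem_biUnion.1 ((mem_filter.1 hc).2 hx)
        exact mem_biUnion.2 ⟨j, hs (mem_filter.2 ⟨mem_univ _, fun hd =>
          disjoint_left.1 hd hx hj⟩), hj⟩
    constructor
    · intro hs
      have hc : c ∈ blk G supp i := mem_filter.2 ⟨mem_univ _,
        hs.trans (biUnion_subset_biUnion_of_subset_left _ (subset_univ _))⟩
      obtain ⟨h3, h4⟩ := (hT (key D G supp i c)).1 ((hin hc).1 hs)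
      simp only [ow, if_pos hc, h3, h4]
      simp
    · intro hs
      by_cases hc : c ∈ blk G supp i
      · have h3 := (hT (key D G supp i c)).2 (fun h => hs ((hin hc).2 h))
        simp only [ow, if_pos hc, h3]
      · simp only [ow, if_neg hc]

/-- the bound for families which are not good -/
theorem sys_bound [Nonempty Q] {K : ℕ} (hd : 1 ≤ d) (hr : 1 ≤ r) (n : Fin r → ℕ)
    (hnd : ∀ j, d ≤ n j) (hN : R * ∑ j, n j ≤ N) (h1 : ∀ c, (supp c).Nonempty)
    (h2 : ∀ c, (supp c).card ≤ d) (hC : ∀ E : Finset (Fin N), E.card = d → ∃ c, supp c = E)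
    (hK : ∀ E : Finset (Fin N), (univ.filter fun c => supp c = E).card ≤ K)
    (hab : ∀ c, a c ≠ b c) {q : ℕ} (hq : Fintype.card Q ≤ q) {L : Set ℕ}
    (hL : ∀ T : Finset (Fin r), T.Nonempty → ∑ j ∈ T, n j ∈ L) {β : ℝ} (hβ0 : 0 ≤ β)
    (hβ : ∀ S : Finset (Simp d r → Bool), ¬ PGood S →
      (S.card : ℝ) ≤ β * 2 ^ Fintype.card (Simp d r))
    (S : Finset (C → Q)) (hS : ¬ GoodIn supp a b L S) :
    (S.card : ℝ) ≤ (β + (1 - 1 / (q : ℝ) ^ (K * 2 ^ ∑ j, n j)) ^ R)
      * (Fintype.card Q : ℝ) ^ Fintype.card C := by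
  classical
  have hQ : 1 ≤ Fintype.card Q := Fintype.card_pos
  obtain ⟨G, hn, hG⟩ := exists_groups n hN
  set D : Simp d r := ⟨{⟨0, hr⟩}, by simp, by simpa using hd⟩ with hD
  have h3 := block (B := blk G supp) (key := key D G supp) (a := a) (b := b) (R := R)
    (κ := K * 2 ^ ∑ j, n j)
    (blk_disj hG h1) hab (fun i hi T => key_surj D hn hnd (fun j => hd.trans (hnd j)) hG hC hd hi T)
    (fun i hi => blk_card hn hK hi) hQ S hβ0 (fun i hi ω => hβ _ fun hg =>
      hS (goodIn_of_pgood D hn hnd hG h1 h2 hC hL hi S ω hg))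
  refine h3.trans (mul_le_mul_of_nonneg_right ?_ (by positivity))
  have hQ1 : (1 : ℝ) ≤ Fintype.card Q := by exact_mod_cast hQ
  have hqQ : (Fintype.card Q : ℝ) ≤ q := by exact_mod_cast hq
  have h4 : (0 : ℝ) < (Fintype.card Q : ℝ) ^ (K * 2 ^ ∑ j, n j) := by positivity
  have h5 : (Fintype.card Q : ℝ) ^ (K * 2 ^ ∑ j, n j) ≤ (q : ℝ) ^ (K * 2 ^ ∑ j, n j) :=
    pow_le_pow_left₀ (by positivity) hqQ _
  have h6 : 1 / (q : ℝ) ^ (K * 2 ^ ∑ j, n j) ≤ 1 / (Fintype.card Q : ℝ) ^ (K * 2 ^ ∑ j, n j) :=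
    one_div_le_one_div_of_le h4 h5
  have h7 : 1 / (Fintype.card Q : ℝ) ^ (K * 2 ^ ∑ j, n j) ≤ 1 := by
    rw [div_le_one h4]
    exact one_le_pow₀ hQ1
  have h8 := pow_le_pow_left₀ (by linarith) (by linarith : 1 - 1 / (Fintype.card Q : ℝ)
    ^ (K * 2 ^ ∑ j, n j) ≤ 1 - 1 / (q : ℝ) ^ (K * 2 ^ ∑ j, n j)) R
  linarith

end

end Pool.Agent.K4H98.Rel
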