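import Mathlib
import Pool.Agent.K4H98.Rel.Sys

set_option autoImplicit false

/-!
# Tuples as a system of cells; pattern families which are not good with the critical density
-/

namespace Pool.Agent.K4H98.Rel

open Finset
open Pool.Agent.TH484.PH (GoodF)
open Pool.Agent.H720R3 (pw mem_pw)

/-- the set of entries of a tuple -/
def tsupp {d N : ℕ} (t : Fin d → Fin N) : Finset (Fin N) := univ.image t

lemma tsupp_nonempty {d N : ℕ} (hd : 1 ≤ d) (t : Fin d → Fin N) : (tsupp t).Nonempty :=
  ⟨t ⟨0, hd⟩, mem_image_of_mem _ (mem_univ _)⟩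

lemma tsupp_card {d N : ℕ} (t : Fin d → Fin N) : (tsupp t).card ≤ d :=
  card_image_le.trans (by simp)

lemma exists_tsupp {d N : ℕ} (E : Finset (Fin N)) (h1 : 1 ≤ E.card) (h2 : E.card ≤ d) :
    ∃ t : Fin d → Fin N, tsupp t = E := exists_tup (⟨E, h1, h2⟩ : Simp d N)

lemma tsupp_count {d N e : ℕ} (hde : d ≤ e) (E : Finset (Fin N)) :
    (univ.filter fun t : Fin d → Fin N => tsupp t = E).card ≤ e ^ e := by
  classical
  by_cases hE : E.card ≤ d
  · have h1 : (univ.filter fun t : Fin d → Fin N => tsupp t = E).card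
        ≤ (Fintype.piFinset fun _ : Fin d => E).card := by
      refine card_le_card fun t ht => ?_
      rw [Fintype.mem_piFinset]
      intro i
      rw [← (mem_filter.1 ht).2]
      exact mem_image_of_mem _ (mem_univ _)
    refine h1.trans ?_
    rw [Fintype.card_piFinset]
    simp only [prod_const, card_univ, Fintype.card_fin]
    rcases Nat.eq_zero_or_pos d with h0 | h0
    · subst h0
      simp only [pow_zero]
      rcases Nat.eq_zero_or_pos e with h | h
      · subst h
        simp
      · exact Nat.one_le_pow _ _ h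
    · calc E.card ^ d ≤ e ^ d := Nat.pow_le_pow_left (hE.trans hde) d
        _ ≤ e ^ e := Nat.pow_le_pow_right (by omega) hde
  · have : (univ.filter fun t : Fin d → Fin N => tsupp t = E) = ∅ := by
      rw [filter_eq_empty_iff]
      intro t _ ht
      rw [← ht] at hE
      exact hE (tsupp_card t)
    rw [this, card_empty]
    exact Nat.zero_le _

lemma tsupp_subset {d N : ℕ} (t : Fin d → Fin N) (γ : Finset (Fin N)) :
    tsupp t ⊆ γ ↔ t ∈ pw d γ := by
  rw [mem_pw]
  constructor
  · exact fun h i => h (mem_image_of_mem _ (mem_univ _))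
  · intro h x hx
    obtain ⟨i, -, rfl⟩ := mem_image.1 hx
    exact h i

/-- the family of the indicator words -/
def words {E : Type} [Fintype E] [DecidableEq E] (S : Finset (Finset E)) : Finset (E → Bool) :=
  univ.filter fun x => (univ.filter fun c => x c = true) ∈ S

lemma card_words {E : Type} [Fintype E] [DecidableEq E] (S : Finset (Finset E)) :
    (words S).card = S.card := by
  refine card_nbij' (fun x => univ.filter fun c => x c = true) (fun A c => decide (c ∈ A)) ?_ ?_ ?_ ?_
  · intro x hx
    exact (mem_filter.1 hx).2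
  · intro A hA
    have : (univ.filter fun c => decide (c ∈ A) = true) = A := by
      ext c
      simp
    refine mem_coe.2 (mem_filter.2 ⟨mem_univ _, ?_⟩)
    rw [this]
    exact hA
  · intro x _
    funext c
    simp
  · intro A _
    ext c
    simp

lemma goodF_of_goodIn {d N : ℕ} (hd : 1 ≤ d) {L : Set ℕ} (S : Finset (Finset (Fin d → Fin N)))
    (h : GoodIn tsupp (fun _ => false) (fun _ => true) L (words S)) : GoodF S := by
  classical
  obtain ⟨x, hx, y, hy, γ, -, ⟨c, hc⟩, hxy⟩ := h
  refine ⟨_, (mem_filter.1 hx).2, γ, ?_, ?_, ?_⟩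
  · obtain ⟨z, hz⟩ := tsupp_nonempty hd c
    exact ⟨z, hc hz⟩
  · rw [disjoint_left]
    intro t ht ht'
    have h1 := ((hxy t).1 ((tsupp_subset t γ).2 ht')).1
    have h2 := (mem_filter.1 ht).2
    rw [h1] at h2
    simp at h2
  · have : (univ.filter fun c => x c = true) ∪ pw d γ = univ.filter fun c => y c = true := by
      ext t
      rw [mem_union, mem_filter, mem_filter]
      by_cases ht : t ∈ pw d γ
      · have h1 := ((hxy t).1 ((tsupp_subset t γ).2 ht)).2
        simp [ht, h1]
      · have h1 := (hxy t).2 (fun h => ht ((tsupp_subset t γ).1 h))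
        simp [ht, h1]
    rw [this]
    exact (mem_filter.1 hy).2

/-- for every `r` there is a family of patterns which is not good and has the critical density -/
theorem exists_npgood {d : ℕ} (hd : 1 ≤ d) {θd : ℝ} (hθ1 : θd ≤ 1)
    (hlow : ∀ ε : ℝ, 0 < ε → ∃ N₀ : ℕ, ∀ N : ℕ, N₀ ≤ N →
      ∃ S : Finset (Finset (Fin d → Fin N)), ¬ GoodF S ∧
        (θd - ε) * (2 : ℝ) ^ (N ^ d) ≤ S.card) (r : ℕ) :
    ∃ S : Finset (Simp d r → Bool), ¬ PGood S ∧
      θd * 2 ^ Fintype.card (Simp d r) ≤ S.card := by
  classical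
  rcases Nat.eq_zero_or_pos r with h0 | hr
  · subst h0
    refine ⟨univ, ?_, ?_⟩
    · rintro ⟨P, -, P', -, T₀, ⟨x, -⟩, -⟩
      exact x.elim0
    · rw [card_univ, Fintype.card_fun, Fintype.card_bool]
      push_cast
      have : (0 : ℝ) < 2 ^ Fintype.card (Simp d 0) := by positivity
      nlinarith
  by_contra hcon
  push Not at hcon
  -- the largest family which is not good
  obtain ⟨S₀, hS₀, hmax⟩ := exists_max_image
    (univ.filter fun S : Finset (Simp d r → Bool) => ¬ PGood S) (fun S => S.card)
    ⟨∅, mem_filter.2 ⟨mem_univ _, by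
      rintro ⟨P, hP, -⟩
      exact absurd hP (notMem_empty _)⟩⟩
  have h1 := hcon S₀ (mem_filter.1 hS₀).2
  have hW : (0 : ℝ) < 2 ^ Fintype.card (Simp d r) := by positivity
  obtain ⟨β, hβ⟩ : ∃ β : ℝ, β = S₀.card / 2 ^ Fintype.card (Simp d r) := ⟨_, rfl⟩
  have hβ0 : 0 ≤ β := by rw [hβ]; positivity
  have hβθ : β < θd := by
    rw [hβ, div_lt_iff₀ hW]
    exact h1
  have hβS : ∀ S : Finset (Simp d r → Bool), ¬ PGood S →
      (S.card : ℝ) ≤ β * 2 ^ Fintype.card (Simp d r) := by
    intro S hS
    rw [hβ, div_mul_cancel₀ _ hW.ne']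
    exact_mod_cast hmax S (mem_filter.2 ⟨mem_univ _, hS⟩)
  obtain ⟨ε, hε⟩ : ∃ ε, ε = (θd - β) / 3 := ⟨_, rfl⟩
  have hε0 : 0 < ε := by rw [hε]; linarith
  set κ := d ^ d * 2 ^ ∑ _j : Fin r, d with hκ
  have hfr : 0 ≤ 1 - 1 / ((2 : ℕ) : ℝ) ^ κ := by
    have : 1 / ((2 : ℕ) : ℝ) ^ κ ≤ 1 := by
      rw [div_le_one (by positivity)]
      exact one_le_pow₀ (by norm_num)
    linarith
  have hfr1 : 1 - 1 / ((2 : ℕ) : ℝ) ^ κ < 1 := by
    have : 0 < 1 / ((2 : ℕ) : ℝ) ^ κ := by positivity
    linarith
  obtain ⟨R, hR⟩ := exists_pow_lt_of_lt_one hε0 hfr1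
  obtain ⟨N₀, hN₀⟩ := hlow ε hε0
  set N := max N₀ (R * ∑ _j : Fin r, d) with hN
  obtain ⟨S, hS, hSc⟩ := hN₀ N (le_max_left _ _)
  have h2 := sys_bound (C := Fin d → Fin N) (Q := Bool) (supp := tsupp) (a := fun _ => false)
    (b := fun _ => true) (K := d ^ d) (R := R) hd hr (fun _ => d) (fun _ => le_rfl)
    (le_max_right _ _) (tsupp_nonempty hd) tsupp_card
    (fun E hE => exists_tsupp E (by omega) hE.le) (fun E => tsupp_count le_rfl E)
    (fun _ => by decide) (q := 2) (by simp) (L := Set.univ) (fun T _ => Set.mem_univ _) hβ0 hβS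
    (words S) (fun h => hS (goodF_of_goodIn hd S h))
  rw [card_words] at h2
  have h3 : Fintype.card (Fin d → Fin N) = N ^ d := by simp
  rw [h3, ← hκ, Fintype.card_bool] at h2
  have h4 : (0 : ℝ) < (2 : ℝ) ^ (N ^ d) := by positivity
  push_cast at h2 hR
  nlinarith

/-- the letters are mapped to bits so that the number of words over each pattern is the same -/
theorem lower_sys {d N : ℕ} {C Q : Type} [Fintype C] [DecidableEq C] [Fintype Q] [DecidableEq Q]
    (supp : C → Finset (Fin N)) (a b : C → Q) (hab : ∀ c, a c ≠ b c)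
    (h1 : ∀ c, (supp c).Nonempty) (hC : ∀ E : Finset (Fin N), 1 ≤ E.card → E.card ≤ d →
      ∃ c, supp c = E) (hd : 1 ≤ d) {θ : ℝ} (S : Finset (Simp d N → Bool)) (hS : ¬ PGood S)
    (hθ : θ * 2 ^ Fintype.card (Simp d N) ≤ S.card) :
    ∃ S' : Finset (C → Q), ¬ GoodIn supp a b Set.univ S' ∧
      θ * (Fintype.card Q : ℝ) ^ Fintype.card C ≤ S'.card := by
  classical
  have hch : ∀ T : Simp d N, ∃ c, supp c = T.1 := fun T => hC T.1 T.2.1 T.2.2
  choose c hc using hch
  have hcinj : Function.Injective c := fun T T' h => Subtype.ext (by rw [← hc T, ← hc T', h])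
  -- maps of the letters to bits
  let H : Type := (T : Simp d N) → {f : Q → Bool // f (a (c T)) = false ∧ f (b (c T)) = true}
  haveI : Nonempty H := ⟨fun T => ⟨fun x => decide (x = b (c T)), by
    simp [hab (c T)], by simp⟩⟩
  let pat : (C → Q) × H → (Simp d N → Bool) := fun p T => (p.2 T).1 (p.1 (c T))
  -- flipping
  let flip : (Simp d N → Bool) → (C → Q) × H → (C → Q) × H := fun D p =>
    (fun x => if ∃ T, D T = true ∧ c T = x then Equiv.swap (a x) (b x) (p.1 x) else p.1 x,
     fun T => if D T = true then ⟨fun x => !(p.2 T).1 (Equiv.swap (a (c T)) (b (c T)) x), by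
        simp [Equiv.swap_apply_left, (p.2 T).2.2], by
        simp [Equiv.swap_apply_right, (p.2 T).2.1]⟩ else p.2 T)
  have hex : ∀ (D : Simp d N → Bool) (T : Simp d N), (∃ T', D T' = true ∧ c T' = c T) ↔
      D T = true := by
    intro D T
    constructor
    · rintro ⟨T', h, h'⟩
      rw [← hcinj h']
      exact h
    · exact fun h => ⟨T, h, rfl⟩
  have hpat : ∀ D p T, pat (flip D p) T = xor (D T) (pat p T) := by
    intro D p T
    simp only [pat, flip, hex]
    by_cases hD : D T = true
    · simp only [hD, if_true, Equiv.swap_apply_self, Bool.true_xor]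
    · have hD' : D T = false := by simpa using hD
      simp only [hD', Bool.false_eq_true, if_false, Bool.false_xor]
  have hinv : ∀ D p, flip D (flip D p) = p := by
    intro D p
    refine Prod.ext ?_ ?_
    · funext x
      simp only [flip]
      by_cases hx : ∃ T, D T = true ∧ c T = x
      · simp only [if_pos hx, Equiv.swap_apply_self]
      · simp only [if_neg hx]
    · funext T
      simp only [flip]
      by_cases hD : D T = true
      · simp only [hD, if_true]
        apply Subtype.ext
        funext x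
        simp only [Equiv.swap_apply_self, Bool.not_not]
      · simp only [if_neg hD]
  have hfib : ∀ P P' : Simp d N → Bool, (univ.filter fun p : (C → Q) × H => pat p = P).card
      = (univ.filter fun p : (C → Q) × H => pat p = P').card := by
    intro P P'
    set D : Simp d N → Bool := fun T => xor (P T) (P' T) with hD
    have h1 : ∀ p, pat p = P → pat (flip D p) = P' := by
      intro p hp
      funext T
      rw [hpat, hp]
      show xor (xor (P T) (P' T)) (P T) = P' T
      cases P T <;> cases P' T <;> rfl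
    have h2 : ∀ p, pat p = P' → pat (flip D p) = P := by
      intro p hp
      funext T
      rw [hpat, hp]
      show xor (xor (P T) (P' T)) (P' T) = P T
      cases P T <;> cases P' T <;> rfl
    refine card_nbij' (flip D) (flip D) ?_ ?_ (fun p _ => hinv D p) (fun p _ => hinv D p)
    · intro p hp
      exact mem_coe.2 (mem_filter.2 ⟨mem_univ _, h1 p (mem_filter.1 hp).2⟩)
    · intro p hp
      exact mem_coe.2 (mem_filter.2 ⟨mem_univ _, h2 p (mem_filter.1 hp).2⟩)
  set f : ℕ := (univ.filter fun p : (C → Q) × H => pat p = fun _ => false).card with hf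
  have keyc : ∀ U : Finset (Simp d N → Bool),
      (univ.filter fun p : (C → Q) × H => pat p ∈ U).card = U.card * f := by
    intro U
    rw [card_eq_sum_card_fiberwise (f := pat)
      (s := univ.filter fun p : (C → Q) × H => pat p ∈ U) (t := U)
      (fun p hp => (mem_filter.1 (mem_coe.1 hp)).2)]
    have : ∀ P ∈ U, ((univ.filter fun p : (C → Q) × H => pat p ∈ U).filter
        fun p => pat p = P).card = f := by
      intro P hP
      rw [hf, ← hfib P]
      congr 1
      ext p
      simp only [mem_filter, mem_univ, true_and]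
      exact ⟨fun h => h.2, fun h => ⟨by rw [h]; exact hP, h⟩⟩
    rw [sum_congr rfl this, sum_const, smul_eq_mul]
  have huniv := keyc univ
  have h2 : (univ.filter fun p : (C → Q) × H => pat p ∈ (univ : Finset (Simp d N → Bool)))
      = univ := by
    ext p
    simp
  rw [h2, card_univ, card_univ, Fintype.card_prod, Fintype.card_fun, Fintype.card_fun,
    Fintype.card_bool] at huniv
  -- the sum over the maps of the letters
  have h3 : ((univ.filter fun p : (C → Q) × H => pat p ∈ S).card : ℝ)
      = ∑ h : H, ((univ.filter fun x : C → Q => pat (x, h) ∈ S).card : ℝ) := by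
    rw [← Nat.cast_sum]
    congr 1
    rw [card_filter, Fintype.sum_prod_type_right]
    refine sum_congr rfl fun h _ => ?_
    rw [card_filter]
  have h4 : θ * ((Fintype.card Q : ℝ) ^ Fintype.card C * Fintype.card H)
      ≤ ((univ.filter fun p : (C → Q) × H => pat p ∈ S).card : ℝ) := by
    have h5 : ((Fintype.card Q : ℝ) ^ Fintype.card C * Fintype.card H)
        = 2 ^ Fintype.card (Simp d N) * f := by exact_mod_cast huniv
    rw [h5, keyc S]
    push_cast
    rw [← mul_assoc]
    exact mul_le_mul_of_nonneg_right hθ (Nat.cast_nonneg _)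
  obtain ⟨h, hh⟩ : ∃ h : H, θ * (Fintype.card Q : ℝ) ^ Fintype.card C
      ≤ ((univ.filter fun x : C → Q => pat (x, h) ∈ S).card : ℝ) := by
    by_contra hcon
    push Not at hcon
    have h5 : ∑ h : H, ((univ.filter fun x : C → Q => pat (x, h) ∈ S).card : ℝ)
        < ∑ _h : H, θ * (Fintype.card Q : ℝ) ^ Fintype.card C :=
      sum_lt_sum_of_nonempty univ_nonempty fun h _ => hcon h
    rw [sum_const, card_univ, nsmul_eq_mul, ← h3] at h5
    linarith
  refine ⟨_, ?_, hh⟩
  rintro ⟨x, hx, y, hy, γ, -, ⟨c₀, hc₀⟩, hxy⟩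
  refine hS ⟨_, (mem_filter.1 hx).2, _, (mem_filter.1 hy).2, γ, ?_, fun T => ⟨fun hT => ?_,
    fun hT => ?_⟩⟩
  · obtain ⟨z, hz⟩ := h1 c₀
    exact ⟨z, hc₀ hz⟩
  · have h5 := (hxy (c T)).1 (by rw [hc T]; exact hT)
    simp only [pat, h5.1, h5.2]
    exact (h T).2
  · have h5 := (hxy (c T)).2 (by rw [hc T]; exact hT)
    simp only [pat, h5]

end Pool.Agent.K4H98.Rel
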